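import Pool.Agent.D0H75.LF.Uniq

/-!
# Lefschetz decompositions: conjugates and transposes
-/

set_option autoImplicit false

namespace Pool.Agent.D0H30.LF

open Finset Pool.Agent.D0H75.LF

/-- V3: the conjugate of a Lefschetz decomposition by a unit of degree `0` which commutes with `L`. -/
theorem v3 {A : Type*} [Ring A] (D : ℤ → AddSubgroup A) (L : A) (d : ℕ) (p : ℕ → A)
    (h : IsLef D L d p) (hm : ∀ i j x y, x ∈ D i → y ∈ D j → x * y ∈ D (i + j)) (v w : A)
    (hv : v ∈ D 0) (hw : w ∈ D 0) (hvw : v * w = 1) (hwv : w * v = 1) (hc : v * L = L * v) :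
    IsLef D L d (fun i => v * p i * w) := by
  have hcw : w * L = L * w := by
    calc w * L = w * L * (v * w) := by rw [hvw, mul_one]
      _ = w * (L * v) * w := by simp only [mul_assoc]
      _ = w * (v * L) * w := by rw [hc]
      _ = (w * v) * (L * w) := by simp only [mul_assoc]
      _ = L * w := by rw [hwv, one_mul]
  have hcwn : ∀ n : ℕ, w * L ^ n = L ^ n * w := fun n => (Commute.pow_right (show Commute w L from hcw) n).eq
  have hcvn : ∀ n : ℕ, v * L ^ n = L ^ n * v := fun n => (Commute.pow_right (show Commute v L from hc) n).eq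
  have hconj : ∀ a b : A, (v * a * w) * (v * b * w) = v * (a * b) * w := by
    intro a b
    calc (v * a * w) * (v * b * w) = v * a * (w * v) * (b * w) := by simp only [mul_assoc]
      _ = v * (a * b) * w := by rw [hwv]; simp only [mul_assoc, one_mul]
  have h0 : ∀ i x, x ∈ D i → v * x * w ∈ D i := by
    intro i x hx
    have h1 := hm 0 i v x hv hx
    have h2 := hm (0 + i) 0 _ w h1 hw
    simpa using h2
  refine ⟨fun i => h0 0 _ (h.mem i), fun i hi => ?_, fun i => ?_, fun i j hij => ?_, ?_, fun i => ?_,
    ?_, ?_, fun i hi => ?_⟩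
  · simp only [h.out i hi, mul_zero, zero_mul]
  · simp only [hconj, h.idem]
  · simp only [hconj, h.orth i j hij, mul_zero, zero_mul]
  · rw [← Finset.sum_mul, ← Finset.mul_sum, h.sum, mul_one, hvw]
  · calc L * (v * p i * w) = (L * v) * p i * w := by simp only [mul_assoc]
      _ = v * (L * p i) * w := by rw [← hc]; simp only [mul_assoc]
      _ = v * (p (i + 2) * L) * w := by rw [h.comm]
      _ = v * p (i + 2) * (L * w) := by simp only [mul_assoc]
      _ = v * p (i + 2) * w * L := by rw [← hcw]; simp only [mul_assoc]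
  · calc v * p 0 * w * L = v * (p 0 * (w * L)) := by simp only [mul_assoc]
      _ = v * (p 0 * L) * w := by rw [hcw]; simp only [mul_assoc]
      _ = 0 := by rw [h.zero, mul_zero, zero_mul]
  · calc v * p 1 * w * L = v * (p 1 * (w * L)) := by simp only [mul_assoc]
      _ = v * (p 1 * L) * w := by rw [hcw]; simp only [mul_assoc]
      _ = 0 := by rw [h.one, mul_zero, zero_mul]
  · obtain ⟨t, ht, h1, h2⟩ := h.hl i hi
    refine ⟨v * t * w, h0 _ _ ht, ?_, ?_⟩
    · calc v * t * w * L ^ (d - i) * (v * p i * w)
          = v * t * (w * L ^ (d - i)) * (v * p i * w) := by simp only [mul_assoc]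
        _ = v * (t * L ^ (d - i)) * w * (v * p i * w) := by rw [hcwn]; simp only [mul_assoc]
        _ = v * (t * L ^ (d - i) * p i) * w := by rw [hconj]
        _ = v * p i * w := by rw [h1]
    · calc L ^ (d - i) * (v * t * w) * (v * p (2 * d - i) * w)
          = (L ^ (d - i) * v) * t * w * (v * p (2 * d - i) * w) := by simp only [mul_assoc]
        _ = v * (L ^ (d - i) * t) * w * (v * p (2 * d - i) * w) := by
            rw [← hcvn]; simp only [mul_assoc]
        _ = v * (L ^ (d - i) * t * p (2 * d - i)) * w := by rw [hconj]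
        _ = v * p (2 * d - i) * w := by rw [h2]

/-- V1: the transpose of a Lefschetz decomposition. -/
theorem v1 {A : Type*} [Ring A] (D : ℤ → AddSubgroup A) (L : A) (d : ℕ) (p : ℕ → A)
    (h : IsLef D L d p) (hm : ∀ i j x y, x ∈ D i → y ∈ D j → x * y ∈ D (i + j)) (τ : A →+ A)
    (hmul : ∀ x y, τ (x * y) = τ y * τ x) (hinv : ∀ x, τ (τ x) = x)
    (hD : ∀ i x, x ∈ D i → τ x ∈ D i) (hL : τ L = L) :
    IsLef D L d (fun i => if i ≤ 2 * d then τ (p (2 * d - i)) else 0) := by
  have h1 : τ 1 = 1 := by
    have e := hmul (τ 1) 1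
    rw [mul_one, hinv, mul_one] at e
    exact e.symm
  have hLn : ∀ n : ℕ, τ (L ^ n) = L ^ n := by
    intro n
    induction n with
    | zero => simpa using h1
    | succ n ih => rw [pow_succ, hmul, ih, hL, ← pow_succ', pow_succ]
  refine ⟨fun i => ?_, fun i hi => ?_, fun i => ?_, fun i j hij => ?_, ?_, fun i => ?_,
    ?_, ?_, fun i hi => ?_⟩
  · split_ifs
    · exact hD 0 _ (h.mem _)
    · exact (D 0).zero_mem
  · rw [if_neg (by omega)]
  · split_ifs
    · rw [← hmul, h.idem]
    · rw [mul_zero]
  · split_ifs with a b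
    · rw [← hmul, h.orth _ _ (by omega), map_zero]
    · rw [mul_zero]
    · rw [zero_mul]
    · rw [zero_mul]
  · have e : ∑ i ∈ range (2 * d + 1), (if i ≤ 2 * d then τ (p (2 * d - i)) else 0)
        = ∑ i ∈ range (2 * d + 1), τ (p (2 * d + 1 - 1 - i)) := by
      refine sum_congr rfl fun i hi => ?_
      rw [mem_range] at hi
      rw [if_pos (by omega)]
      rfl
    rw [e, sum_range_reflect (fun i => τ (p i)) (2 * d + 1), ← map_sum, h.sum, h1]
  · by_cases a : i ≤ 2 * d
    · rw [if_pos a]
      have e1 : L * τ (p (2 * d - i)) = τ (p (2 * d - i) * L) := by rw [hmul, hL]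
      have e2 := h.mul_pow 1 (2 * d - i)
      rw [pow_one, mul_one] at e2
      rw [e1, e2]
      by_cases b : i + 2 ≤ 2 * d
      · rw [if_pos (by omega), if_pos b, hmul, hL, show 2 * d - i - 2 = 2 * d - (i + 2) by omega]
      · rw [if_neg (by omega), if_neg b, map_zero, zero_mul]
    · rw [if_neg a, if_neg (by omega), mul_zero, zero_mul]
  · rw [if_pos (Nat.zero_le _)]
    have e1 : τ (p (2 * d - 0)) * L = τ (L * p (2 * d - 0)) := by rw [hmul, hL]
    rw [e1, h.comm, h.out _ (by omega), zero_mul, map_zero]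
  · split_ifs with a
    · have e1 : τ (p (2 * d - 1)) * L = τ (L * p (2 * d - 1)) := by rw [hmul, hL]
      rw [e1, h.comm, h.out _ (by omega), zero_mul, map_zero]
    · rw [zero_mul]
  · obtain ⟨t, ht, h2, h3⟩ := h.hl i hi
    have e4 : L ^ (d - i) * p i = p (2 * d - i) * L ^ (d - i) := by
      rw [h.pow_mul, show i + 2 * (d - i) = 2 * d - i by omega]
    refine ⟨τ (p i * t * p (2 * d - i)), hD _ _ ?_, ?_, ?_⟩
    · have a1 := hm 0 _ _ _ (h.mem i) ht
      have a2 := hm _ 0 _ _ a1 (h.mem (2 * d - i))
      simpa using a2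
    · rw [if_pos (by omega)]
      calc τ (p i * t * p (2 * d - i)) * L ^ (d - i) * τ (p (2 * d - i))
          = τ (p i * t * p (2 * d - i)) * τ (L ^ (d - i)) * τ (p (2 * d - i)) := by rw [hLn]
        _ = τ (p (2 * d - i) * (L ^ (d - i) * (p i * t * p (2 * d - i)))) := by
            rw [hmul (p (2 * d - i)), hmul (L ^ (d - i))]
        _ = τ (p (2 * d - i)) := by
            congr 1
            calc p (2 * d - i) * (L ^ (d - i) * (p i * t * p (2 * d - i)))
                = p (2 * d - i) * (L ^ (d - i) * p i) * (t * p (2 * d - i)) := by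
                  simp only [mul_assoc]
              _ = (p (2 * d - i) * p (2 * d - i)) * (L ^ (d - i) * t * p (2 * d - i)) := by
                  rw [e4]; simp only [mul_assoc]
              _ = p (2 * d - i) := by rw [h3, h.idem, h.idem]
    · rw [if_pos (by omega), show 2 * d - (2 * d - i) = i by omega]
      calc L ^ (d - i) * τ (p i * t * p (2 * d - i)) * τ (p i)
          = τ (L ^ (d - i)) * τ (p i * t * p (2 * d - i)) * τ (p i) := by rw [hLn]
        _ = τ (p i * ((p i * t * p (2 * d - i)) * L ^ (d - i))) := by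
            rw [hmul (p i) (p i * t * p (2 * d - i) * L ^ (d - i)),
              hmul (p i * t * p (2 * d - i)) (L ^ (d - i))]
        _ = τ (p i) := by
            congr 1
            calc p i * ((p i * t * p (2 * d - i)) * L ^ (d - i))
                = (p i * p i) * t * (p (2 * d - i) * L ^ (d - i)) := by simp only [mul_assoc]
              _ = p i * (t * L ^ (d - i) * p i) := by
                  rw [h.idem, ← e4]; simp only [mul_assoc]
              _ = p i := by rw [h2, h.idem]

end Pool.Agent.D0H30.LF
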